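import Pool.Agent.Helper79.HT.Relh

set_option autoImplicit false

/-!
Beilinson's conjecture Q1 for `i = 1`, `n = 2`: finite dimensionality of the unramified classes
`{f_1, u_1} + ... + {f_r, u_r}` in `K_2` of a curve, for fixed functions `f_1, ..., f_r` and arbitrary
functions `u_i` whose zeros and poles have coordinates of bounded degree, uniformly for all number fields; and its
relative form for a covering `X → Y`.

Let `X` be a smooth projective curve over a number field `k`, with function field `L`. By localization and
Matsumoto's theorem `H²_M(X, ℚ(2))` is the space of the elements of `K_2^M(L) ⊗ ℚ` whose tame symbols at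
the closed points of `X`, that is at the discrete valuations of `L` which are trivial on `k`, vanish. It
contains the integral part of Beilinson's conjecture. It is not known that one of these spaces is of finite
dimension if the genus of `X` is positive.

**Theorem.** Let `k` be a number field or any other field which is algebraic over `ℚ`, for instance the field of all
algebraic numbers, `X` a smooth projective curve over `k` with function field `L`, `x` a non-constant function on
`X`, `f_1, ..., f_r ∈ Lˣ` and `D ≥ 0`.

(1) Let `f_1, ..., f_r` be multiplicatively independent modulo constants (or assume at least that all constant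
products `∏ f_i ^ m_i` are roots of unity). The unramified classes
`{f_1, u_1} + ... + {f_r, u_r}`, where the functions `u_i ∈ Lˣ` are arbitrary functions such that `x(P)` is infinite
or an algebraic number of degree at most `D` (over `ℚ`) for all zeros and poles `P` of the `u_i`, form a
finite-dimensional space.

(2) Let `X → Y` be any covering of curves over `k`, `F` the function field of `Y` (and `X` geometrically
connected). For all functions `f_1, ..., f_r` on `X` the unramified classes `{f_1, u_1} + ... + {f_r, u_r} + β` on
`X`, where the functions `u_i ∈ Fˣ` satisfy the condition of (1) and `β ∈ K_2^M(F) ⊗ ℚ` is arbitrary, form a space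
of finite dimension modulo `K_2^M(F) ⊗ ℚ`.

If `k` is a number field then (1) applies to all functions `u_i` whose zeros and poles are closed points of bounded
degree over `k`. If `k` is the field of all algebraic numbers and the curves and functions are defined over a number
field `K₀`, then the theorem says that the classes of this form over all number fields `K ⊇ K₀`, of any degree,
are contained in one space of finite dimension (modulo `K_2^M(F) ⊗ ℚ`); here the functions `u_i` are defined
over `K` and all their zeros and poles have coordinates of bounded degree. If `X` is a hyperelliptic curve and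
`F = k(x)` then every element of `K_2^M(L)` is of the form `{f_1, u_1} + ... + {f_r, u_r}` with `u_i ∈ Fˣ`; (2)
says that for every finitely generated group `Γ` of functions on `X` the unramified classes in
`{Γ, Fˣ} + K_2^M(F) ⊗ ℚ`, with entries in `Fˣ` of bounded degree of the zeros and poles, form a space of finite
dimension modulo `K_2^M(F) ⊗ ℚ`. (The symbols `{f_i, u_i}` and `β` need not be unramified, and the points with
`x(P)` of degree at most `D` are infinite in number.)

The proof of (1): if such a class is unramified and `P` is a zero or a pole of one of the `u_i`, not of the `f_i`,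
then the numbers `f_i(P)` satisfy the multiplicative relation `∏ f_i(P) ^ m_i = ` root of unity with
`m_i = ord_P(u_i)`. By the method of Bombieri, Masser and Zannier the points `P` with such a relation (any
`m ≠ 0`) have bounded height, and by Northcott's theorem there are finitely many such that `x(P)` is of degree at
most `D`. The constants are treated by the tame symbols at the zeros and poles of the `f_i`. For (2): on a
Galois covering the conjugates of the class are unramified, so that the sums of the symbols
`{σ(f_i) / f_i, u_i}` are unramified; a product of powers of the functions `σ(f_i) / f_i` which is constant is of the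
form `σ(g) / g` with `g ∈ L`, hence a root of unity (consider the product of all conjugates of `g` which are
constant multiples of `g`), so that these sums are in finite-dimensional spaces by (1); the class is modulo
`K_2^M(F)` the negative of their mean.
-/

namespace Pool.Agent.Results.MP_15b3df_nt.FiniteRankEntries

open scoped WithZero
open Polynomial IntermediateField
open Pool.Agent.TH826.MK (KQ symb unitPart)

/-- The normalized discrete valuations of `L` which are trivial on `k` (the closed points of the smooth
projective curve with function field `L`). -/
def IsPoint (k : Type*) {L : Type*} [Field k] [Field L] [Algebra k L] (v : Valuation L ℤᵐ⁰) : Prop :=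
  Function.Surjective v ∧ ∀ c : k, c ≠ 0 → v (algebraMap k L c) = 1

/-- The classes in `K_2^M(L) ⊗ ℚ` which are unramified over `k`: the elements whose tame symbols at all
points vanish. (`unitPart v 2` is the subspace generated by the symbols `{a, b}` with `v(a) = v(b) = 1`;
it is the kernel of the tame symbol.) -/
noncomputable def UnramifiedOver (k L : Type*) [Field k] [Field L] [Algebra k L] : Submodule ℚ (KQ L 2) :=
  ⨅ (v : Valuation L ℤᵐ⁰) (_ : IsPoint k v), unitPart v 2

/-- The value of `x` at the point `v` is infinite or a zero of a monic polynomial of degree at most `D` with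
rational coefficients. -/
def ValueLE (k : Type*) {L : Type*} [Field k] [CharZero k] [Field L] [Algebra k L] (x : L) (D : ℕ)
    (v : Valuation L ℤᵐ⁰) : Prop :=
  1 < v x ∨ ∃ Q : ℚ[X], Q.Monic ∧ Q.natDegree ≤ D ∧ v (aeval x (Q.map (algebraMap ℚ k))) < 1

/-- The value of `x` at all zeros and poles of `u` is infinite or of degree at most `D` over `ℚ`. -/
def SupportLE (k : Type*) {L : Type*} [Field k] [CharZero k] [Field L] [Algebra k L] (x : L) (D : ℕ)
    (u : Lˣ) : Prop :=
  ∀ v : Valuation L ℤᵐ⁰, IsPoint k v → v (u : L) ≠ 1 → ValueLE k x D v

/-- The space of the classes `q • ({f_1, u_1} + ... + {f_r, u_r})`, `q ∈ ℚ`, `u_i ∈ Lˣ` with `SupportLE`: the span of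
the symbols `{f_i, u}` with such functions `u`. -/
noncomputable def Classes (k : Type*) {L : Type*} [Field k] [CharZero k] [Field L] [Algebra k L] {r : ℕ}
    (f : Fin r → Lˣ) (x : L) (D : ℕ) : Submodule ℚ (KQ L 2) :=
  Submodule.span ℚ {z | ∃ (i : Fin r) (u : Lˣ), SupportLE k x D u ∧ z = symb ![f i, u]}

/-- The space of the classes `q • ({f_1, u_1} + ... + {f_r, u_r})`, `q ∈ ℚ`, `u_i ∈ Fˣ` with `SupportLE`. -/
noncomputable def ClassesOver {k L : Type*} [Field k] [CharZero k] [Field L] [Algebra k L]
    (F : IntermediateField k L) {r : ℕ} (f : Fin r → Lˣ) (x : L) (D : ℕ) : Submodule ℚ (KQ L 2) :=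
  Submodule.span ℚ {z | ∃ (i : Fin r) (u : Fˣ), SupportLE k x D (Units.map (algebraMap F L : F →* L) u) ∧
    z = symb ![f i, Units.map (algebraMap F L : F →* L) u]}

/-- `k` is algebraically closed in `L`. -/
def IsClosedIn (k L : Type*) [Field k] [Field L] [Algebra k L] : Prop :=
  ∀ x : L, IsAlgebraic k x → ∃ c : k, algebraMap k L c = x

/-- The image of `K_2^M(F) ⊗ ℚ` in `K_2^M(L) ⊗ ℚ`. -/
noncomputable def FromSubfield {k L : Type*} [Field k] [Field L] [Algebra k L] (F : IntermediateField k L) :
    Submodule ℚ (KQ L 2) :=
  LinearMap.range (KQ.map 2 (algebraMap F L))

/-- **Theorem.** Let `k` be a field which is algebraic over `ℚ` (for instance a number field, or the field of all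
algebraic numbers), `L` a function field of one variable over `k` and `x ∈ L` transcendental over `k`,
`f_1, ..., f_r ∈ Lˣ` and `D` a natural number.
(1) If all products `∏ f_i ^ m_i` which are constant (algebraic over `k`) are roots of unity, for instance if the `f_i`
are multiplicatively independent modulo constants, then the unramified classes of the form
`q • ({f_1, u_1} + ... + {f_r, u_r})`, where the value of `x` at all zeros and poles of the functions `u_i ∈ Lˣ` is
infinite or of degree at most `D` over `ℚ`, form a finite-dimensional `ℚ`-vector space.
(2) If `k` is algebraically closed in `L` and `F` is a field between `k` and `L` over which `L` is finite, then the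
unramified classes of the form `q • ({f_1, u_1} + ... + {f_r, u_r}) + β`, with such functions `u_i` in `Fˣ` and `β` in the
image of `K_2^M(F) ⊗ ℚ`, form a finite-dimensional `ℚ`-vector space modulo the image of `K_2^M(F) ⊗ ℚ`. -/
theorem result {k : Type*} {L : Type*} [Field k] [CharZero k] [Algebra.IsAlgebraic ℚ k] [Field L] [Algebra k L]
    (x : L) (hx : Transcendental k x) [FiniteDimensional k⟮x⟯ L] {r : ℕ} (f : Fin r → Lˣ) (D : ℕ) :
    ((∀ m : Fin r → ℤ, IsAlgebraic k ((∏ i, f i ^ m i : Lˣ) : L) →
      ∃ n : ℕ, 0 < n ∧ (∏ i, f i ^ m i : Lˣ) ^ n = 1) →
      FiniteDimensional ℚ ↥(Classes k f x D ⊓ UnramifiedOver k L)) ∧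
    (IsClosedIn k L → ∀ (F : IntermediateField k L) [FiniteDimensional F L],
      FiniteDimensional ℚ
        ↥(((ClassesOver F f x D ⊔ FromSubfield F) ⊓ UnramifiedOver k L).map (FromSubfield F).mkQ)) :=
  ⟨fun hf => Helper79.HT.fin_alg_dep x hx f hf D, fun hcl F _ => Helper79.HT.rel_any hcl x hx F f D⟩

end Pool.Agent.Results.MP_15b3df_nt.FiniteRankEntries
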