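import Pool.Agent.Helper79.FE.Asm
import Pool.Agent.Helper79.QP.RelFin
import Pool.Agent.Helper79.QP.Fin

set_option autoImplicit false

/-!
Beilinson's conjecture Q1 for `i = 1`, `n = 2`: finite dimensionality of the unramified classes with a fixed
entry `f` in `K_2` of a curve, its relative form for a covering `X → Y`, and its relative form over the field of
the algebraic numbers.

Let `X` be a smooth projective curve over a number field `K`, with function field `L`. By localization and
Matsumoto's theorem `H²_M(X, ℚ(2))` is the space of the elements of `K_2^M(L) ⊗ ℚ` whose tame symbols at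
the closed points of `X`, that is at the discrete valuations of `L` which are trivial on `K`, vanish. It
contains the integral part of Beilinson's conjecture. It is not known that one of these spaces is of finite
dimension if the genus of `X` is positive.

**Theorem.** (1) For every non-constant `f ∈ L` the elements of the form `{f, u}`, `u ∈ Lˣ`, in this space form
a finite-dimensional subspace. (2) Let `X → Y` be a finite morphism of curves, `F` the function field of `Y`
(and `X` geometrically connected). For every `f ∈ Lˣ` the unramified classes `{f, u} + β` on `X`, with `u ∈ Fˣ`
and `β ∈ K_2(F) ⊗ ℚ` arbitrary, form a space of finite dimension modulo `K_2(F) ⊗ ℚ`. The same holds if `K` is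
replaced by any field `k ⊆ K(μ_∞)`. (3) If no power `f ^ m`, `m ≥ 1`, is of degree two over `F`, then (2) holds for
all algebraically closed fields `k` which can be embedded into the field of complex numbers: the classes
`{f, u} + β` over all number fields (of any degree) over which `X → Y` and `f` are defined are in one space of
finite dimension modulo `K_2(F) ⊗ ℚ`.

(In (2) and (3) the symbols `{f, u}` and the element `β` need not be unramified themselves, and the field `F`,
for instance `K(x)`, has a `K_2` of infinite dimension, so that there are infinitely many free parameters. All
the constructions of classes with torsion divisors on hyperelliptic and superelliptic curves give classes of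
this form, `F = K(x)`. The condition in (3) is necessary for statements of this generality: on the
hyperelliptic curves `z + 1/z = F(x)` one has infinitely many classes `{z, (x - b) / (x - b')}` over the field of
algebraic numbers, where `F(b)` and `F(b')` are sums of a root of unity and its inverse. So the powers of the
quadratic functions are the only source of infinite families of this kind.)

The proof of (1) uses the irreducibility theorem of Dvornicich and Zannier over the roots of unity (with
Loxton's theorem) for the field `K(μ_∞)`, a Galois-closure argument for functions which are not powers, and the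
injectivity of `K_2(L) ⊗ ℚ → K_2(L') ⊗ ℚ` for algebraic extensions (Bass and Tate); all of this is proved
in the imported files. For (2) and (3): on a Galois covering the conjugates of the class are unramified, so that
the symbols `{σ(f) / f, u}` are unramified; a class `{f, u} + β` is modulo `K_2(F)` the negative of the mean of
these symbols, which are in case (2) in finite-dimensional spaces by (1). In case (3), at a zero or a pole of `u`
which is not a zero or a pole of the functions `g_σ = σ(f) / f` all `g_σ` have torsion values. If there are
infinitely many such places then by the theorem of Ihara, Serre, Tate and Lang on torsion points on curves all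
the `g_σ` are up to torsion powers of one function; the Galois group acts on this line by a character of order
two, and a power of `f` is quadratic over `F`. Otherwise the divisors of the `u` are supported on a finite set,
and the tame symbols at a zero of one `g_σ` treat the constants.
-/

namespace Pool.Agent.Results.MP_15b3df_nt.FixedEntryFiniteDim

open scoped WithZero
open Polynomial IntermediateField
open Pool.Agent.TH826.MK (KQ KQ.map symb unitPart)

universe u₁ u₂ u₃

/-- The normalized discrete valuations of `L` which are trivial on `k` (the closed points of the smooth
projective curve with function field `L`). -/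
def IsPoint (k : Type*) {L : Type*} [Field k] [Field L] [Algebra k L] (v : Valuation L ℤᵐ⁰) : Prop :=
  Function.Surjective v ∧ ∀ x : k, x ≠ 0 → v (algebraMap k L x) = 1

/-- The classes in `K_2^M(L) ⊗ ℚ` which are unramified over `k`: the elements whose tame symbols at all
points vanish. (`unitPart v 2` is the subspace generated by the symbols `{a, b}` with `v(a) = v(b) = 1`;
it is the kernel of the tame symbol.) -/
noncomputable def UnramifiedOver (k L : Type*) [Field k] [Field L] [Algebra k L] : Submodule ℚ (KQ L 2) :=
  ⨅ (v : Valuation L ℤᵐ⁰) (_ : IsPoint k v), unitPart v 2

/-- The image of `K_2^M(F) ⊗ ℚ` in `K_2^M(L) ⊗ ℚ`. -/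
noncomputable def FromSubfield {k L : Type*} [Field k] [Field L] [Algebra k L] (F : IntermediateField k L) :
    Submodule ℚ (KQ L 2) :=
  LinearMap.range (KQ.map 2 (algebraMap F L))

/-- The span of the symbols `{f, u}`, `u ∈ Fˣ`. (Every element is of the form `q • {f, u}`.) -/
noncomputable def WithEntry {k L : Type*} [Field k] [Field L] [Algebra k L] (F : IntermediateField k L)
    (f : Lˣ) : Submodule ℚ (KQ L 2) :=
  Submodule.span ℚ {z | ∃ u : Fˣ, z = symb ![f, Units.map (algebraMap F L : F →* L) u]}

/-- `L` is a function field of one variable over `k`. -/
def IsFunctionField (k L : Type*) [Field k] [Field L] [Algebra k L] : Prop :=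
  ∃ x : L, Transcendental k x ∧ FiniteDimensional k⟮x⟯ L

/-- Every element of `k` is in `K(ζ)` for a root of unity `ζ`: the algebraic extension `k` of `K` is contained in
`K(μ_∞)`. -/
def InCyclotomic (K k : Type*) [Field K] [Field k] [Algebra K k] : Prop :=
  ∀ x : k, ∃ (n : ℕ) (ζ : AlgebraicClosure k), 0 < n ∧ ζ ^ n = 1 ∧
    algebraMap k (AlgebraicClosure k) x ∈ IntermediateField.adjoin K {ζ}

/-- `k` is algebraically closed in `L`. -/
def IsClosedIn (k L : Type*) [Field k] [Field L] [Algebra k L] : Prop :=
  ∀ x : L, IsAlgebraic k x → ∃ c : k, algebraMap k L c = x

/-- The unramified classes `{f, u}`, `u ∈ Lˣ`, form a space of finite dimension: the intersection of the span of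
all the `{f, u}` with the unramified part. -/
def EntryFinite (k : Type*) {L : Type*} [Field k] [Field L] [Algebra k L] (f : Lˣ) : Prop :=
  FiniteDimensional ℚ ↥(WithEntry (⊤ : IntermediateField k L) f ⊓ UnramifiedOver k L)

/-- The unramified classes in `{f, Fˣ} + K_2^M(F) ⊗ ℚ` form a space of finite dimension modulo
`K_2^M(F) ⊗ ℚ`. -/
def RelativeFinite {k L : Type*} [Field k] [Field L] [Algebra k L] (F : IntermediateField k L) (f : Lˣ) : Prop :=
  FiniteDimensional ℚ ↥(((WithEntry F f ⊔ FromSubfield F) ⊓ UnramifiedOver k L).map (FromSubfield F).mkQ)

theorem withEntry_eq {k L : Type*} [Field k] [Field L] [Algebra k L] (F : IntermediateField k L) (f : Lˣ) :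
    WithEntry F f = Submodule.span ℚ (Set.range fun u : Fˣ =>
      Pool.Agent.Helper537_Sym.sy f (Helper79.QP.up F L u)) := by
  unfold WithEntry
  congr 1
  ext z
  exact ⟨fun ⟨u, hu⟩ => ⟨u, hu.symm⟩, fun ⟨u, hu⟩ => ⟨u, hu.symm⟩⟩

/-- **Theorem.** Let `L` be a function field of one variable over `k` and `f ∈ Lˣ`.
(1) If `K` is a number field, `k` a field between `K` and `K(μ_∞)` (for instance `k = K`) and `f` is
transcendental over `k` then the unramified classes `{f, u}`, `u ∈ Lˣ`, form a space of finite
dimension: the intersection of the span of all the `{f, u}` with the unramified part.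
(2) If `K` is a number field, `k` a field between `K` and `K(μ_∞)` which is algebraically closed in `L`, and `F` is
a field between `k` and `L` over which `L` is finite, then the unramified classes in
`{f, Fˣ} + K_2^M(F) ⊗ ℚ` form a space of finite dimension modulo `K_2^M(F) ⊗ ℚ`.
(3) The same holds for all algebraically closed fields `k` which can be embedded into the field of complex
numbers (for example the field of the algebraic numbers) and all fields `F` between `k` and `L` over which `L` is
finite, if no power `f ^ m`, `m ≥ 1`, is of degree two over `F`. -/
theorem result :
    (∀ (K : Type u₁) (k : Type u₂) (L : Type u₃) [Field K] [NumberField K] [Field k] [Algebra K k] [Field L]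
      [Algebra k L], InCyclotomic K k → IsFunctionField k L → ∀ f : Lˣ,
      (Transcendental k (f : L) → EntryFinite k f) ∧
      (IsClosedIn k L → ∀ (F : IntermediateField k L) [FiniteDimensional F L], RelativeFinite F f)) ∧
    (∀ (k : Type u₂) (L : Type u₃) [Field k] [IsAlgClosed k] [Field L] [Algebra k L], Nonempty (k →+* ℂ) →
      IsFunctionField k L → ∀ (F : IntermediateField k L) [FiniteDimensional F L] (f : Lˣ),
      (∀ m : ℕ, 1 ≤ m → (minpoly F ((f : L) ^ m)).natDegree ≠ 2) → RelativeFinite F f) := by
  refine ⟨fun K k L _ _ _ _ _ _ hk hL f => ?_, fun k L _ _ _ _ hι hL F _ f hf => ?_⟩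
  · obtain ⟨x, hx, hfin⟩ := hL
    have hkc : CharZero k := charZero_of_injective_algebraMap (algebraMap K k).injective
    constructor
    · intro hf
      have := Helper79.FE.fin_adj x (f : L) hx hf
      have h := Helper79.FE.finite_desc hk f hf
      have e : WithEntry (⊤ : IntermediateField k L) f =
          Submodule.span ℚ (Set.range fun u : Lˣ => Pool.Agent.Helper537_Sym.sy f u) := by
        rw [withEntry_eq]
        congr 1
        ext z
        constructor
        · rintro ⟨u, rfl⟩
          exact ⟨_, rfl⟩
        · rintro ⟨u, rfl⟩
          refine ⟨Units.mk0 (⟨(u : L), IntermediateField.mem_top⟩ : (⊤ : IntermediateField k L))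
            (fun h0 => u.ne_zero (congrArg Subtype.val h0)), ?_⟩
          show Pool.Agent.Helper537_Sym.sy f _ = Pool.Agent.Helper537_Sym.sy f u
          congr 1
          exact Units.ext rfl
      unfold EntryFinite
      rw [e]
      exact h
    · intro hcl F _
      have h := Helper79.QP.rel_inter hk hcl x hx F f
      unfold RelativeFinite
      rw [withEntry_eq]
      exact h
  · obtain ⟨x, hx, hfin⟩ := hL
    obtain ⟨ι⟩ := hι
    have h := Helper79.QP.inter_fin ι x hx F f hf
    unfold RelativeFinite
    rw [withEntry_eq]
    exact h

end Pool.Agent.Results.MP_15b3df_nt.FixedEntryFiniteDim
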