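import Pool.Agent.Helper79.UN.PC
import Pool.Agent.Helper79.UN.AC

set_option autoImplicit false

/-!
Beilinson's conjecture Q1 for `i = 1`, `n = 2`: a uniform bound for the number of classes `{f, w} + β` of bounded
degree on a covering `X → Y`, `w` a function on `Y` and `β` an arbitrary element of `K_2` of the function field
of `Y`, over all fields of characteristic zero.

Let `X` be a smooth projective geometrically connected variety over a number field `K`, with function field `L`.
`H²_M(X, ℚ(2))` is the space of the elements of `K_2^M(L) ⊗ ℚ` whose tame symbols at the discrete valuations of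
`L` which are trivial on `K` vanish. It contains the integral part of Beilinson's conjecture, and conjecturally
it is of finite dimension. This is not known for a single curve of positive genus.

**Theorem.** (a) For all `e`, `D` and `N` there is a number `B(N, e, D)` with the following property. Let `X → Y` be
a covering of degree at most `e` of curves (of any genera) over **any** field `K` of characteristic zero, and
consider the elements `{f, w} + β` of `K_2^M(L)`, where `f` is a function on `X` and `w` a function on `Y`, both of
degree at most `D` on `X`, and `β` is an arbitrary element of the image of `K_2^M` of the function field of `Y`.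
Those whose tame symbols at the points of `X` are of order dividing `N` (for `N = 1`: the elements of this form of
`H⁰(X, K_2)`) form at most `B(N, e, D)` classes in `K_2^M(L) ⊗ ℚ` modulo this image.

(b) For all `n`, `e` and `D` there is a number `B(n, e, D)` with the following property. Let `X → Y` be a covering
of degree at most `e` of curves (of any genera) over a number field `K` of degree at most `n`. The elements
`{f, w} + β` of `H²_M(X, ℚ(2))`, where `f` is a function on `X` and `w` a function on `Y`, of degree at most `D` on
`X`, and `β` is arbitrary in the image of `K_2^M ⊗ ℚ` of the function field of `Y`, form at most `B(n, e, D)`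
classes modulo this image. More generally, for every prime number `p` there is such a bound `B(p, n, e, D)` for
all number fields `K`, *of any degree*, which have a place over `p` of local degree at most `n` (for instance for
all number fields in which `p` splits completely, with `n = 1`), and even for all subfields `K` of extensions of
`ℚ_p` of degree at most `n`. Indeed there is a bound `B(R, e, D)` for all fields `K` of characteristic zero whose
roots of unity of degree at most `m` over `K` are of order at most `R(m)`, for all `m`, for a given function
`R : ℕ → ℕ`.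

For the dominant, generically finite maps `X → Y` of varieties of dimension at most `d` there are such bounds
`B(N, e, D, d)` and `B(R, e, D, d)`.

(For varieties the degree is measured by means of a transcendence basis `u` of the function field of `Y`: for
all `t ∈ u` the rational maps `(f, u - {t})` and `(w, u - {t})` from `X` to the `d`-dimensional space are of
degree at most `D`, or not dominant.)

(Neither `{f, w}` nor `β` is assumed to be unramified, and the field `F`, for instance `K(x)`, has a `K_2` of
infinite dimension, so that there are infinitely many free parameters. If `L` is quadratic over `F` every element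
of `K_2^M(L)` is a sum of symbols `{f, w}`; all the constructions of classes with torsion divisors on
hyperelliptic and superelliptic curves give classes of the form `{f, w} + β`, with `F = K(x)`.)

The proof: on a Galois covering of `Y` the conjugates of the class are unramified, so that the symbols
`{σ(f) / f, w}` are unramified (in case (a): their tame symbols are of order dividing `N`). By the theorem on
unramified symbols of bounded degree (`UniformBound`) they form a bounded number of classes modulo the constants; and `{f, w} + β` is modulo `K_2(F)` the negative of the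
mean of these symbols. The constant elements are removed by the transfer, since `K` is algebraically closed
in `L`.
-/

namespace Pool.Agent.Results.MP_15b3df_nt.RelativeUniformBound

open scoped WithZero
open IntermediateField
open Pool.Agent.TH826.MK (KQ symb unitPart)

universe u

/-- The normalized discrete valuations of `L` which are trivial on `K` (for a function field of one variable:
the closed points of the smooth projective curve; in general all prime divisors of all models of `L`). -/
def IsPoint (K : Type*) {L : Type*} [Field K] [Field L] [Algebra K L] (v : Valuation L ℤᵐ⁰) : Prop :=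
  Function.Surjective v ∧ ∀ x : K, x ≠ 0 → v (algebraMap K L x) = 1

/-- The element `z` of `K_2^M(L) ⊗ ℚ` is unramified over `K`: its tame symbols at all these valuations
vanish. (`unitPart v 2` is the subspace generated by the symbols `{a, b}` with `v(a) = v(b) = 1`; it is the
kernel of the tame symbol.) -/
def Unramified (K : Type*) {L : Type*} [Field K] [Field L] [Algebra K L] (z : KQ L 2) : Prop :=
  ∀ v : Valuation L ℤᵐ⁰, IsPoint K v → z ∈ unitPart v 2

/-- The image of `K_2^M(F) ⊗ ℚ` in `K_2^M(L) ⊗ ℚ`. -/
noncomputable def FromSubfield (F L : Type*) [Field F] [Field L] [Algebra F L] : Submodule ℚ (KQ L 2) :=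
  LinearMap.range (KQ.map 2 (algebraMap F L))

/-- For all `m` the roots of unity of degree at most `m` over `K` are of order at most `R m`. -/
def RootsOfUnityLE (K : Type*) [Field K] (R : ℕ → ℕ) : Prop :=
  ∀ (m N : ℕ) (ζ : AlgebraicClosure K), 0 < N → IsPrimitiveRoot ζ N → (minpoly K ζ).natDegree ≤ m → N ≤ R m

/-- All algebraic numbers in `K` are of degree at most `n` over `ℚ` (for instance, `K` is a number field of
degree at most `n`, or a finitely generated extension of such a field in which it is algebraically closed). -/
def AlgebraicNumbersLE (K : Type*) [Field K] [CharZero K] (n : ℕ) : Prop :=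
  ∀ x : K, IsAlgebraic ℚ x → (minpoly ℚ x).natDegree ≤ n

/-- `K` can be embedded in an extension of `ℚ_p` of degree at most `n` (for a number field `K`: there is a place
of `K` over `p` of local degree at most `n`). -/
def LocalDegreeLE (K : Type*) [Field K] (p n : ℕ) [Fact p.Prime] : Prop :=
  ∃ E : IntermediateField ℚ_[p] (AlgebraicClosure ℚ_[p]), FiniteDimensional ℚ_[p] E ∧
    Module.finrank ℚ_[p] E ≤ n ∧ Nonempty (K →+* E)

/-- `L` is a function field of one variable over `K`. -/
def IsFunctionField (K L : Type*) [Field K] [Field L] [Algebra K L] : Prop :=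
  ∃ x : L, Transcendental K x ∧ FiniteDimensional K⟮x⟯ L

/-- `L` is a finitely generated field extension of `K`. -/
def IsFinitelyGenerated (K L : Type*) [Field K] [Field L] [Algebra K L] : Prop :=
  ∃ S : Finset L, IntermediateField.adjoin K (S : Set L) = ⊤

/-- `K` is algebraically closed in `L`. -/
def IsClosedIn (K L : Type*) [Field K] [Field L] [Algebra K L] : Prop :=
  ∀ x : L, IsAlgebraic K x → ∃ c : K, algebraMap K L c = x

/-- `[L : K(f)] ≤ D`, or `[L : K(f)]` is infinite (Mathlib's `finrank` is `0` in this case; for a function
field `L` of one variable this happens if and only if `f` is algebraic over `K`). -/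
def DegreeLE (K : Type*) {L : Type*} [Field K] [Field L] [Algebra K L] (D : ℕ) (f : L) : Prop :=
  Module.finrank K⟮f⟯ L ≤ D

/-- `[L : K(u - {t})(f)] ≤ D` (or infinite) for all `t ∈ u`, where `u` is a transcendence basis of `L`. -/
def DegreeLEOver (K : Type*) {L : Type*} [Field K] [Field L] [Algebra K L] (u : Set L) (D : ℕ) (f : L) : Prop :=
  ∀ t ∈ u, DegreeLE (IntermediateField.adjoin K (u \ {t})) D f

/-- The tame symbol of `{f, g}` at `v` (or its inverse), before the reduction to the residue field. -/
noncomputable def tameSymbol {L : Type*} [Field L] (v : Valuation L ℤᵐ⁰) (f g : L) : L :=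
  (-1) ^ (WithZero.log (v f) * WithZero.log (v g)) * f ^ WithZero.log (v g) / g ^ WithZero.log (v f)

/-- The tame symbols at all points of the element `{f, w} + ∑ {a, b}` of `K_2^M(L)`, the sum over all pairs `(a, b)`
of elements of `F` in the list `l`, are of order dividing `N`. -/
def TameOrderDvd (K : Type*) {F L : Type*} [Field K] [Field F] [Field L] [Algebra K L] [Algebra F L] (N : ℕ)
    (f : Lˣ) (w : Fˣ) (l : List (Fˣ × Fˣ)) : Prop :=
  ∀ v : Valuation L ℤᵐ⁰, IsPoint K v → v ((tameSymbol v (f : L) (algebraMap F L w) *
    (l.map fun p => tameSymbol v (algebraMap F L p.1) (algebraMap F L p.2)).prod) ^ N - 1) < 1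

/-- There is an element `β` of the image of `K_2^M(F)` such that the tame symbols of `{f, w} + β` are of order
dividing `N`; or there is an element `β` of the image of `K_2^M(F) ⊗ ℚ` such that `{f, w} + β` is unramified, and
for all `m` the roots of unity of degree at most `m` over `K` are of order at most `R m`. -/
def TameBounded (K : Type*) {F L : Type*} [Field K] [Field F] [Field L] [Algebra K L] [Algebra F L] (N : ℕ)
    (R : ℕ → ℕ) (f : Lˣ) (w : Fˣ) : Prop :=
  (∃ l : List (Fˣ × Fˣ), TameOrderDvd K N f w l) ∨
    RootsOfUnityLE K R ∧ ∃ β ∈ FromSubfield F L, Unramified K (symb ![f, Units.map (algebraMap F L : F →* L) w] + β)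

/-- The classes modulo `K_2^M(F)` of the elements `{f, w}` (equivalently, `{f, w} + β`, `β` in the image of
`K_2^M(F) ⊗ ℚ`) of `K_2^M(L) ⊗ ℚ` such that `f ∈ Lˣ` and `w ∈ Fˣ` have property `P` and `(f, w)` has property
`Q`. -/
def RelativeClasses {F L : Type*} [Field F] [Field L] [Algebra F L] (P : L → Prop) (Q : Lˣ → Fˣ → Prop) :
    Set (KQ L 2 ⧸ FromSubfield F L) :=
  {z | ∃ (f : Lˣ) (w : Fˣ), P f ∧ P (algebraMap F L w) ∧ Q f w ∧
    z = Submodule.Quotient.mk (symb ![f, Units.map (algebraMap F L : F →* L) w])}

/-- (1) For all `N ≥ 1`, `R : ℕ → ℕ`, `e` and `D` there is a number `B` such that for every field `K` of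
characteristic zero, every function field `L` of one variable over `K` in which `K` is algebraically closed, and
every field `F` between `K` and `L` with `[L : F] ≤ e`, the following elements form at most `B` classes modulo the
image of `K_2^M(F) ⊗ ℚ`: the elements `{f, w} + β` of `K_2^M(L)` with `f ∈ Lˣ`, `w ∈ Fˣ`, `[L : K(f)] ≤ D`,
`[L : K(w)] ≤ D` (or `f` or `w` constant) and `β` in the image of `K_2^M(F)` whose tame symbols are of order dividing
`N`; and, if for all `m` the roots of unity of degree at most `m` over `K` are of order at most `R m`, all
unramified elements `{f, w} + β` of `K_2^M(L) ⊗ ℚ` with such `f` and `w` and `β` in the image of `K_2^M(F) ⊗ ℚ`.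
(2) For all `N ≥ 1`, `R`, `e`, `D` and `d` there is a number `B` such that the same holds for every field `K` of
characteristic zero, every finitely generated extension `L` of `K` in which `K` is algebraically closed, every
field `F` between `K` and `L` with `[L : F] ≤ e`, and every transcendence basis `u ⊆ F` of `L` over `K` with at most
`d` elements, where now `[L : K(u - {t})(f)] ≤ D` and `[L : K(u - {t})(w)] ≤ D` for all `t ∈ u` (or `f` or `w`
algebraic over `K(u - {t})`).
(3) For all `n` there is a function `R` such that all fields `K` whose algebraic numbers are of degree at most `n`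
have the property of (1).
(4) For all `p` and `n` there is a function `R` such that all fields `K` which can be embedded in an extension of
`ℚ_p` of degree at most `n` have the property of (1). -/
theorem result :
    (∀ (N : ℕ) (R : ℕ → ℕ) (e D : ℕ), 0 < N → ∃ B : ℕ, ∀ (K L : Type u) [Field K] [CharZero K] [Field L]
      [Algebra K L] (F : IntermediateField K L) [FiniteDimensional F L], Module.finrank F L ≤ e →
      IsFunctionField K L → IsClosedIn K L →
      (RelativeClasses (F := F) (L := L) (DegreeLE K D) (TameBounded K N R)).encard ≤ B) ∧
    (∀ (N : ℕ) (R : ℕ → ℕ) (e D d : ℕ), 0 < N → ∃ B : ℕ, ∀ (K L : Type u) [Field K] [CharZero K] [Field L]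
      [Algebra K L] (F : IntermediateField K L) [FiniteDimensional F L], Module.finrank F L ≤ e →
      IsFinitelyGenerated K L → IsClosedIn K L →
      ∀ u : Set L, u.Finite → u.ncard ≤ d → IsTranscendenceBasis K ((↑) : u → L) → u ⊆ F →
      (RelativeClasses (F := F) (DegreeLEOver K u D) (TameBounded K N R)).encard ≤ B) ∧
    (∀ n : ℕ, ∃ R : ℕ → ℕ, ∀ (K : Type u) [Field K] [CharZero K], AlgebraicNumbersLE K n → RootsOfUnityLE K R) ∧
    (∀ (p n : ℕ) [Fact p.Prime], ∃ R : ℕ → ℕ, ∀ (K : Type u) [Field K],
      LocalDegreeLE K p n → RootsOfUnityLE K R) := by
  refine ⟨fun N R e D hN => ?_, fun N R e D d hN => ?_, fun n => ?_, fun p n _ => ?_⟩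
  · obtain ⟨B, hB⟩ := Pool.Agent.Helper79.UN.uniform_rel_few.{u} D e R
    obtain ⟨B', hB'⟩ := Pool.Agent.Helper79.UN.uniform_rel_abs.{u} D e hN
    refine ⟨B' + B, ?_⟩
    intro K L _ _ _ _ F _ he hL hK
    by_cases hn : RootsOfUnityLE K R
    · refine (Set.encard_le_encard (t := _ ∪ _) ?_).trans ((Set.encard_union_le _ _).trans (le_trans
        (add_le_add (hB' K F L he hL hK) (hB K F L he hn hL hK)) (by push_cast; rfl)))
      rintro z ⟨f, w, hf, hw, ⟨l, hun⟩ | ⟨-, β, hβ, hun⟩, rfl⟩
      · exact Or.inl ⟨f, w, l, hf, hw, hun, rfl⟩
      · exact Or.inr ⟨f, w, β, hβ, hf, hw, hun, rfl⟩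
    · refine (Set.encard_le_encard ?_).trans ((hB' K F L he hL hK).trans (by exact_mod_cast Nat.le_add_right _ _))
      rintro z ⟨f, w, hf, hw, ⟨l, hun⟩ | ⟨h, -⟩, rfl⟩
      · exact ⟨f, w, l, hf, hw, hun, rfl⟩
      · exact absurd h hn
  · obtain ⟨B, hB⟩ := Pool.Agent.Helper79.UN.uniform_rel_var_few.{u} D e d R
    obtain ⟨B', hB'⟩ := Pool.Agent.Helper79.UN.uniform_rel_var_abs.{u} D e d hN
    refine ⟨B' + B, ?_⟩
    intro K L _ _ _ _ F _ he hL hK u hu hud hub huF
    have huF' : ∀ t ∈ u, ∃ a : F, algebraMap F L a = t := fun t ht => ⟨⟨t, huF ht⟩, rfl⟩
    by_cases hn : RootsOfUnityLE K R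
    · refine (Set.encard_le_encard (t := _ ∪ _) ?_).trans ((Set.encard_union_le _ _).trans (le_trans
        (add_le_add (hB' K F L he hL hK u hu hud hub huF') (hB K F L he hn hL hK u hu hud hub huF'))
        (by push_cast; rfl)))
      rintro z ⟨f, w, hf, hw, ⟨l, hun⟩ | ⟨-, β, hβ, hun⟩, rfl⟩
      · exact Or.inl ⟨f, w, l, hf, hw, hun, rfl⟩
      · exact Or.inr ⟨f, w, β, hβ, hf, hw, hun, rfl⟩
    · refine (Set.encard_le_encard ?_).trans
        ((hB' K F L he hL hK u hu hud hub huF').trans (by exact_mod_cast Nat.le_add_right _ _))
      rintro z ⟨f, w, hf, hw, ⟨l, hun⟩ | ⟨h, -⟩, rfl⟩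
      · exact ⟨f, w, l, hf, hw, hun, rfl⟩
      · exact absurd h hn
  · exact ⟨_, fun K _ _ hK => Pool.Agent.Helper79.UN.few_of_deg hK⟩
  · exact ⟨_, fun K _ hK => Pool.Agent.Helper79.UN.few_of_loc hK⟩

end Pool.Agent.Results.MP_15b3df_nt.RelativeUniformBound
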