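import Pool.Agent.Helper79.UN.AB

set_option autoImplicit false

/-!
Beilinson's conjecture Q1 for `i = 1`, `n = 2`: a uniform bound for the number of unramified symbols of bounded
degree, for all curves and varieties over all fields of characteristic zero.

Let `X` be a smooth projective geometrically connected curve (or variety) over a number field `K`, with
function field `L`. `H²_M(X, ℚ(2))` is the space of the elements of `K_2^M(L) ⊗ ℚ` whose tame symbols at the
prime divisors of `X` vanish; it contains the integral part of Beilinson's conjecture, and conjecturally it
is of finite dimension. It is not known to be of finite dimension for a single curve of positive genus. Here we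
consider all discrete valuations of `L` which are trivial on `K`; the tame symbols of the elements of
`H²_M(X, ℚ(2))` vanish at all of them, since `X` is regular and proper.

**Theorem.** (a) For all `D` and `N` there is a number `B(N, D)` such that for **every** field `K` of
characteristic zero and **every** curve `X` over `K`, of any genus, the elements `{f, g}` of `K_2^M(L)` with `f` and
`g` of degree at most `D` whose tame symbols are of order dividing `N` (for `N = 1`: the elements of this form of
`H⁰(X, K_2)`) form at most `B(N, D)` classes in `K_2^M(L) ⊗ ℚ` modulo the image of `K_2^M(K) ⊗ ℚ` (which vanishes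
for number fields, by a theorem of Garland). There is no condition on the zeros and poles of the functions.

(b) For all `n` and `D` there is a number `B(n, D)` such that for every number field `K` of degree at most `n` and
every curve `X` over `K` the elements of `H²_M(X, ℚ(2))` of the form `{f, g}` with `f` and `g` of degree at most `D`
form at most `B(n, D)` classes. More generally, for every prime number `p` there is such a bound `B(p, n, D)` for
the curves over all number fields `K`, *of any degree*, which have a place over `p` of local degree at most `n`
(for instance over all number fields in which `p` splits completely, with `n = 1`), and even over all subfields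
`K` of extensions of `ℚ_p` of degree at most `n`. Indeed the tame symbols are roots of unity of degree at most `D`
over `K`, so (a) applies to all fields `K` of characteristic zero whose roots of unity of degree at most `m` over
`K` are of order at most `R(m)`, for all `m`, for a given function `R : ℕ → ℕ`.

For all varieties `X` of dimension at most `d` there are such bounds `B(N, D, d)` and `B(R, D, d)`.

(For varieties the degree is measured by means of a transcendence basis `u` of `L`: for all `t ∈ u` the
rational maps `(f, u - {t})` and `(g, u - {t})` from `X` to the `d`-dimensional space are of degree at most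
`D`, or not dominant. For the quotients `f` and `g` of elements of a `K`-subspace of `L` of finite dimension
these degrees are bounded. So the unramified symbols of these functions form finitely many classes.)

The proof: (1) *rigidity in `K_2`*: let `k ⊂ k'` be algebraically closed fields, `X` a curve over `k` and
`{f, g}` an unramified symbol on the constant curve `X_{k'}`. Then `{f, g}` is in
`K_2(k(X)) ⊗ ℚ + K_2(k') ⊗ ℚ`. Indeed, `f` and `g` are algebraically dependent over `k` (for `k'` of
transcendence degree one the form `dlog f ∧ dlog g` is a sum of products of regular differentials of two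
curves; if `f` and `g` were independent then over the algebraic closure of `k(g)` the differential `dlog f`
would be regular at all places, hence zero as its residues are integers). If the field `k(f, g)` is of genus
at least two then it is contained in `k(X)` by the theorem of de Franchis for constant curves; in the genus
zero case the symbol is constant (Milnor), and in the genus one case one uses a translation of the elliptic
curve: `{f, g}` and its translate coincide up to a constant (specialization at a point). (2) An infinite family
of unramified symbols of bounded degree on one curve over an algebraically closed field, with tame symbols of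
bounded order, has a limit in an ultrapower, a symbol as in (1); its class in the quotient is locally constant
in the family. So the family has only finitely many classes. (3) *Uniformity*: let `L_i / k_i` be function
fields of one variable over algebraically closed fields (of arbitrary genus), `E / k` their ultraproduct, `f_i`
and `g_i` functions of degree at most `D` and `f`, `g` their limits. The relative algebraic closure `M` of
`k(f)` in `E` is a function field of one variable over `k`, of degree at most `D` over `k(f)`; it contains the
limits of all families of functions of degree at most `D`. Every place of `M` is the limit of places of the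
fields `L_i`, with ramification bounded by `D`. Hence the tame symbols of `{f, g}` at the places of `M` are of
bounded order, and (2) holds for `M`. (4) In case (b) the orders of the tame symbols
are bounded, since they are roots of unity of degree at most `D` over `K`. (5) Descent from the algebraic closure, by the
transfer in `K_2`. (6) For a variety of dimension `d` one regards `L` as the function field of a curve over
`K(u - {t})`, for all `t ∈ u`, and determines the intersection of the images of the `K_2` of the algebraic
closures of these fields by specialization.
-/

namespace Pool.Agent.Results.MP_15b3df_nt.UniformBound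

open scoped WithZero
open IntermediateField
open Pool.Agent.TH826.MK (KQ symb unitPart)

universe u

/-- The normalized discrete valuations of `L` which are trivial on `K` (for a function field of one variable:
the closed points of the smooth projective curve; in general all prime divisors of all models of `L`). -/
def IsPoint (K : Type*) {L : Type*} [Field K] [Field L] [Algebra K L] (v : Valuation L ℤᵐ⁰) : Prop :=
  Function.Surjective v ∧ ∀ x : K, x ≠ 0 → v (algebraMap K L x) = 1

/-- The symbol `{f, g}` in `K_2^M(L) ⊗ ℚ` is unramified over `K`: its tame symbols at all these valuations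
vanish. (`unitPart v 2` is the subspace generated by the symbols `{a, b}` with `v(a) = v(b) = 1`; it is the
kernel of the tame symbol.) -/
def UnramifiedSymbol (K : Type*) {L : Type*} [Field K] [Field L] [Algebra K L] (f g : Lˣ) : Prop :=
  ∀ v : Valuation L ℤᵐ⁰, IsPoint K v → symb ![f, g] ∈ unitPart v 2

/-- The subspace of the constant elements: the image of `K_2^M(K) ⊗ ℚ` in `K_2^M(L) ⊗ ℚ`. -/
noncomputable def constants (K L : Type*) [Field K] [Field L] [Algebra K L] : Submodule ℚ (KQ L 2) :=
  LinearMap.range (KQ.map 2 (algebraMap K L))

/-- For all `m` the roots of unity of degree at most `m` over `K` are of order at most `R m`. -/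
def RootsOfUnityLE (K : Type*) [Field K] (R : ℕ → ℕ) : Prop :=
  ∀ (m N : ℕ) (ζ : AlgebraicClosure K), 0 < N → IsPrimitiveRoot ζ N → (minpoly K ζ).natDegree ≤ m → N ≤ R m

/-- All algebraic numbers in `K` are of degree at most `n` over `ℚ` (for instance, `K` is a number field of
degree at most `n`, or a finitely generated extension of such a field in which it is algebraically closed). -/
def AlgebraicNumbersLE (K : Type*) [Field K] [CharZero K] (n : ℕ) : Prop :=
  ∀ x : K, IsAlgebraic ℚ x → (minpoly ℚ x).natDegree ≤ n

/-- `K` can be embedded in an extension of `ℚ_p` of degree at most `n` (for a number field `K`: there is a place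
of `K` over `p` of local degree at most `n`). -/
def LocalDegreeLE (K : Type*) [Field K] (p n : ℕ) [Fact p.Prime] : Prop :=
  ∃ E : IntermediateField ℚ_[p] (AlgebraicClosure ℚ_[p]), FiniteDimensional ℚ_[p] E ∧
    Module.finrank ℚ_[p] E ≤ n ∧ Nonempty (K →+* E)

/-- `L` is a function field of one variable over `K`. -/
def IsFunctionField (K L : Type*) [Field K] [Field L] [Algebra K L] : Prop :=
  ∃ x : L, Transcendental K x ∧ FiniteDimensional K⟮x⟯ L

/-- `L` is a finitely generated field extension of `K`. -/
def IsFinitelyGenerated (K L : Type*) [Field K] [Field L] [Algebra K L] : Prop :=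
  ∃ S : Finset L, IntermediateField.adjoin K (S : Set L) = ⊤

/-- `K` is algebraically closed in `L`. -/
def IsClosedIn (K L : Type*) [Field K] [Field L] [Algebra K L] : Prop :=
  ∀ x : L, IsAlgebraic K x → ∃ c : K, algebraMap K L c = x

/-- `[L : K(f)] ≤ D`, or `[L : K(f)]` is infinite (Mathlib's `finrank` is `0` in this case; for a function
field `L` of one variable this happens if and only if `f` is algebraic over `K`). -/
def DegreeLE (K : Type*) {L : Type*} [Field K] [Field L] [Algebra K L] (D : ℕ) (f : L) : Prop :=
  Module.finrank K⟮f⟯ L ≤ D

/-- `[L : K(u - {t})(f)] ≤ D` (or infinite) for all `t ∈ u`, where `u` is a transcendence basis of `L`. -/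
def DegreeLEOver (K : Type*) {L : Type*} [Field K] [Field L] [Algebra K L] (u : Set L) (D : ℕ) (f : L) : Prop :=
  ∀ t ∈ u, DegreeLE (IntermediateField.adjoin K (u \ {t})) D f

/-- The tame symbol of `{f, g}` at `v` (or its inverse), before the reduction to the residue field. -/
noncomputable def tameSymbol {L : Type*} [Field L] (v : Valuation L ℤᵐ⁰) (f g : L) : L :=
  (-1) ^ (WithZero.log (v f) * WithZero.log (v g)) * f ^ WithZero.log (v g) / g ^ WithZero.log (v f)

/-- The tame symbols of `{f, g}` at all points are of order dividing `N`. -/
def TameOrderDvd (K : Type*) {L : Type*} [Field K] [Field L] [Algebra K L] (N : ℕ) (f g : Lˣ) : Prop :=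
  ∀ v : Valuation L ℤᵐ⁰, IsPoint K v → v (tameSymbol v (f : L) (g : L) ^ N - 1) < 1

/-- The tame symbols of `{f, g}` are of order dividing `N`; or they are of finite order, i.e. `{f, g}` is
unramified in `K_2^M(L) ⊗ ℚ`, and for all `m` the roots of unity of degree at most `m` over `K` are of order at
most `R m`. -/
def TameBounded (K : Type*) {L : Type*} [Field K] [Field L] [Algebra K L] (N : ℕ) (R : ℕ → ℕ) (f g : Lˣ) : Prop :=
  TameOrderDvd K N f g ∨ RootsOfUnityLE K R ∧ UnramifiedSymbol K f g

/-- The classes modulo constants of the symbols `{f, g}` such that `f` and `g` have property `P` and `(f, g)` has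
property `Q`. -/
def Classes (K : Type*) {L : Type*} [Field K] [Field L] [Algebra K L] (P : L → Prop) (Q : Lˣ → Lˣ → Prop) :
    Set (KQ L 2 ⧸ constants K L) :=
  {z | ∃ f g : Lˣ, P f ∧ P g ∧ Q f g ∧ z = Submodule.Quotient.mk (symb ![f, g])}

/-- (1) For all `N ≥ 1`, `R : ℕ → ℕ` and `D` there is a number `B` such that for every field `K` of characteristic
zero and every function field `L` of one variable over `K` in which `K` is algebraically closed, the following
symbols form at most `B` classes in `K_2^M(L) ⊗ ℚ` modulo the image of `K_2^M(K) ⊗ ℚ`: the symbols `{f, g}` with
`[L : K(f)] ≤ D` and `[L : K(g)] ≤ D` (or `f` or `g` constant) whose tame symbols are of order dividing `N`; and,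
if for all `m` the roots of unity of degree at most `m` over `K` are of order at most `R m`, all unramified symbols
`{f, g}` with `[L : K(f)] ≤ D` and `[L : K(g)] ≤ D` (or `f` or `g` constant).
(2) For all `N ≥ 1`, `R`, `D` and `d` there is a number `B` such that for every field `K` of characteristic zero,
every finitely generated extension `L` of `K` in which `K` is algebraically closed, and every transcendence basis
`u` of `L` over `K` with at most `d` elements, the following symbols form at most `B` classes in `K_2^M(L) ⊗ ℚ`
modulo the image of `K_2^M(K) ⊗ ℚ`: the symbols `{f, g}` with `[L : K(u - {t})(f)] ≤ D` and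
`[L : K(u - {t})(g)] ≤ D` for all `t ∈ u` (or `f` or `g` algebraic over `K(u - {t})`) whose tame symbols are of
order dividing `N`; and all unramified symbols with this property if `K` has the property of (1).
(3) For all `n` there is a function `R` such that all fields `K` whose algebraic numbers are of degree at most `n`
have the property of (1).
(4) For all `p` and `n` there is a function `R` such that all fields `K` which can be embedded in an extension of
`ℚ_p` of degree at most `n` have the property of (1). -/
theorem result :
    (∀ (N : ℕ) (R : ℕ → ℕ) (D : ℕ), 0 < N → ∃ B : ℕ, ∀ (K L : Type u) [Field K] [CharZero K] [Field L]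
      [Algebra K L], IsFunctionField K L → IsClosedIn K L →
      (Classes K (L := L) (DegreeLE K D) (TameBounded K N R)).encard ≤ B) ∧
    (∀ (N : ℕ) (R : ℕ → ℕ) (D d : ℕ), 0 < N → ∃ B : ℕ, ∀ (K L : Type u) [Field K] [CharZero K] [Field L]
      [Algebra K L], IsFinitelyGenerated K L → IsClosedIn K L →
      ∀ u : Set L, u.Finite → u.ncard ≤ d → IsTranscendenceBasis K ((↑) : u → L) →
      (Classes K (DegreeLEOver K u D) (TameBounded K N R)).encard ≤ B) ∧
    (∀ n : ℕ, ∃ R : ℕ → ℕ, ∀ (K : Type u) [Field K] [CharZero K], AlgebraicNumbersLE K n → RootsOfUnityLE K R) ∧
    (∀ (p n : ℕ) [Fact p.Prime], ∃ R : ℕ → ℕ, ∀ (K : Type u) [Field K],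
      LocalDegreeLE K p n → RootsOfUnityLE K R) := by
  refine ⟨fun N R D hN => ?_, fun N R D d hN => ?_, fun n => ?_, fun p n _ => ?_⟩
  · obtain ⟨B, hB⟩ := Pool.Agent.Helper79.UN.uniform_rb.{u} D (R D).factorial
    obtain ⟨B', hB'⟩ := Pool.Agent.Helper79.UN.uniform_abs.{u} D hN
    refine ⟨B' + B, fun K L _ _ _ _ hL hK => ?_⟩
    by_cases hn : RootsOfUnityLE K R
    · refine (Set.encard_le_encard (t := _ ∪ _) ?_).trans ((Set.encard_union_le _ _).trans (le_trans
        (add_le_add (hB' K L hL hK) (hB K L (Pool.Agent.Helper79.UN.few_rb hn D) hL hK)) (by push_cast; rfl)))
      rintro z ⟨f, g, hf, hg, hun | ⟨-, hun⟩, rfl⟩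
      · exact Or.inl ⟨f, g, ⟨hf, hg, hun⟩, rfl⟩
      · exact Or.inr ⟨f, g, ⟨hf, hg, hun⟩, rfl⟩
    · refine (Set.encard_le_encard ?_).trans ((hB' K L hL hK).trans (by exact_mod_cast Nat.le_add_right _ _))
      rintro z ⟨f, g, hf, hg, hun | ⟨h, -⟩, rfl⟩
      · exact ⟨f, g, ⟨hf, hg, hun⟩, rfl⟩
      · exact absurd h hn
  · obtain ⟨B, hB⟩ := Pool.Agent.Helper79.UN.uniform_var_rb.{u} D (R D).factorial d
    obtain ⟨B', hB'⟩ := Pool.Agent.Helper79.UN.uniform_var_abs.{u} D d hN
    refine ⟨B' + B, fun K L _ _ _ _ hS hK u hu hud hub => ?_⟩
    by_cases hn : RootsOfUnityLE K R
    · refine (Set.encard_le_encard (t := _ ∪ _) ?_).trans ((Set.encard_union_le _ _).trans (le_trans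
        (add_le_add (hB' K L hS hK u hu hud hub)
          (hB K L (Pool.Agent.Helper79.UN.few_rb hn D) hS hK u hu hud hub)) (by push_cast; rfl)))
      rintro z ⟨f, g, hf, hg, hun | ⟨-, hun⟩, rfl⟩
      · exact Or.inl ⟨f, g, ⟨fun t ht => ⟨hf t ht, hg t ht⟩, hun⟩, rfl⟩
      · exact Or.inr ⟨f, g, ⟨fun t ht => ⟨hf t ht, hg t ht⟩, hun⟩, rfl⟩
    · refine (Set.encard_le_encard ?_).trans
        ((hB' K L hS hK u hu hud hub).trans (by exact_mod_cast Nat.le_add_right _ _))
      rintro z ⟨f, g, hf, hg, hun | ⟨h, -⟩, rfl⟩
      · exact ⟨f, g, ⟨fun t ht => ⟨hf t ht, hg t ht⟩, hun⟩, rfl⟩
      · exact absurd h hn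
  · exact ⟨_, fun K _ _ hK => Pool.Agent.Helper79.UN.few_of_deg hK⟩
  · exact ⟨_, fun K _ hK => Pool.Agent.Helper79.UN.few_of_loc hK⟩

end Pool.Agent.Results.MP_15b3df_nt.UniformBound
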